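import Pool.Agent.H2.PDS.FinalAsm
import Pool.Agent.H2.PDS.RUZ
import Pool.Agent.H2.PDS.TRA
import Pool.Agent.H2.PDS.DEL
import Pool.Agent.H2.PDS.BLK
import Pool.Agent.H2.PDS.GRD
import Pool.Agent.H2.PDS.REP
import Pool.Agent.H2.PDS.EXT
import Pool.Agent.H2.PDS.GRW
import Pool.Agent.H89.PDS.UNI

/-!
MP_35c1fe_nt: a perfect difference set whose representing elements are small for all `n ≤ N` at
infinitely many scales `N`, and functions outside the class of the question which are small at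
these scales.
-/

set_option autoImplicit false

namespace Pool.Agent.Results.MP_35c1fe_nt.LowScales

open Filter Pool.Agent.H88.PD Pool.Agent.H2.PDS

theorem result :
    (∃ C : ℝ, 0 < C ∧ ∃ A : Set ℕ, IsPerfectDifferenceSet A ∧ ∀ x : ℕ, 1 ≤ x →
      ∃ N : ℕ, x ≤ N ∧ (N : ℝ) ≤ C * x ^ 6 ∧
        (∀ n, 1 ≤ n → n ≤ N → ∃ a ∈ A, ∃ b ∈ A, a = b + n ∧
          (a : ℝ) ≤ C * n * (N : ℝ) ^ (5 / 4 : ℝ)) ∧
        ({n : ℕ | 1 ≤ n ∧ n ≤ N ∧ ∃ a ∈ A, ∃ b ∈ A, a = b + n ∧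
          C * (N : ℝ) ^ (5 / 4 : ℝ) < a}.ncard : ℝ) ≤ C * (N : ℝ) ^ (3 / 4 : ℝ)) ∧
    (∃ C : ℝ, 0 < C ∧ ∀ ω : ℕ → ℝ, Tendsto ω atTop atTop →
      ∃ G : ℕ → ℝ, Monotone G ∧ G ∉ growthClass ∧ ∀ᶠ x : ℕ in atTop,
        ∃ N : ℕ, x ≤ N ∧ (N : ℝ) ≤ C * x ^ 6 ∧ G N ≤ ω N * (N : ℝ) ^ (5 / 4 : ℝ)) :=
  final (Pool.Agent.H89.PDS.pf_UNI (pf_EXT (pf_BLK pf_RUZ pf_TRA pf_DEL) (pf_REP pf_GRD)))
    pf_GRW

end Pool.Agent.Results.MP_35c1fe_nt.LowScales
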