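import Mathlib

set_option autoImplicit false

namespace Pool.Agent.Results.MP_35c1fe_nt.NearQuadratic

open Filter Asymptotics

/-- A perfect difference set: a set of positive integers in which every integer `n ≥ 1` is
`a - b` for exactly one pair `(a, b)` of elements. -/
def IsPerfectDifferenceSet (A : Set ℕ) : Prop :=
  (∀ a ∈ A, 1 ≤ a) ∧
    ∀ n : ℕ, 1 ≤ n → ∃! p : ℕ × ℕ, p.1 ∈ A ∧ p.2 ∈ A ∧ p.1 = p.2 + n

/-- spaced sets in an interval are small -/
lemma card_le_of_gap (S : Finset ℕ) (u L g : ℕ) (hg : 1 ≤ g)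
    (hS : ∀ x ∈ S, u ≤ x ∧ x ≤ u + L)
    (hgap : ∀ x ∈ S, ∀ y ∈ S, x < y → g ≤ y - x) : S.card ≤ L / g + 1 := by
  have h1 : S.card ≤ (Finset.range (L / g + 1)).card := by
    apply Finset.card_le_card_of_injOn (fun x => (x - u) / g)
    · intro x hx
      have := hS x (Finset.mem_coe.mp hx)
      simp only [Finset.coe_range, Set.mem_Iio]
      have : (x - u) / g ≤ L / g := Nat.div_le_div_right (by omega)
      omega
    · intro x hx y hy hxy
      have hx1 := hS x (Finset.mem_coe.mp hx)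
      have hy1 := hS y (Finset.mem_coe.mp hy)
      simp only at hxy
      by_contra hne
      rcases Nat.lt_or_gt_of_ne hne with hlt | hlt
      · have h2 := hgap x (Finset.mem_coe.mp hx) y (Finset.mem_coe.mp hy) hlt
        have h3 : (x - u) + g ≤ (y - u) := by omega
        have h4 : ((x - u) + g) / g ≤ (y - u) / g := Nat.div_le_div_right h3
        rw [Nat.add_div_right _ (by omega)] at h4
        omega
      · have h2 := hgap y (Finset.mem_coe.mp hy) x (Finset.mem_coe.mp hx) hlt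
        have h3 : (y - u) + g ≤ (x - u) := by omega
        have h4 : ((y - u) + g) / g ≤ (x - u) / g := Nat.div_le_div_right h3
        rw [Nat.add_div_right _ (by omega)] at h4
        omega
  simpa using h1

/-- uniqueness of the pair with a given difference -/
lemma pds_unique {A : Set ℕ} (hA : IsPerfectDifferenceSet A) {a b c d : ℕ} (ha : a ∈ A)
    (hb : b ∈ A) (hc : c ∈ A) (hd : d ∈ A) {n : ℕ} (hn : 1 ≤ n) (h1 : a = b + n)
    (h2 : c = d + n) : a = c ∧ b = d := by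
  obtain ⟨p, _, hp⟩ := hA.2 n hn
  have e1 := hp (a, b) ⟨ha, hb, h1⟩
  have e2 := hp (c, d) ⟨hc, hd, h2⟩
  have := e1.trans e2.symm
  exact ⟨congrArg Prod.fst this, congrArg Prod.snd this⟩

/-- Sidon bound: a finite part of a perfect difference set inside `[0, X]`. -/
lemma card_sidon {A : Set ℕ} (hA : IsPerfectDifferenceSet A) (T : Finset ℕ) (X : ℕ)
    (hT : ∀ x ∈ T, x ∈ A ∧ x ≤ X) : T.card * T.card - T.card ≤ 2 * X + 1 := by
  have h1 : T.offDiag.card ≤ (Finset.Icc (-(X : ℤ)) X).card := by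
    apply Finset.card_le_card_of_injOn (fun p => (p.1 : ℤ) - p.2)
    · intro p hp
      rw [Finset.mem_coe, Finset.mem_offDiag] at hp
      have h1 := hT _ hp.1
      have h2 := hT _ hp.2.1
      simp only [Finset.coe_Icc, Set.mem_Icc]
      omega
    · intro p hp q hq hpq
      rw [Finset.mem_coe, Finset.mem_offDiag] at hp hq
      simp only at hpq
      obtain ⟨hp1, hp2, hp3⟩ := hp
      obtain ⟨hq1, hq2, hq3⟩ := hq
      rcases Nat.lt_or_gt_of_ne hp3 with hlt | hlt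
      · have hq4 : q.1 < q.2 := by omega
        have := pds_unique hA (hT _ hp2).1 (hT _ hp1).1 (hT _ hq2).1 (hT _ hq1).1
          (n := p.2 - p.1) (by omega) (by omega) (by omega)
        exact Prod.ext this.2 this.1
      · have hq4 : q.2 < q.1 := by omega
        have := pds_unique hA (hT _ hp1).1 (hT _ hp2).1 (hT _ hq1).1 (hT _ hq2).1
          (n := p.1 - p.2) (by omega) (by omega) (by omega)
        exact Prod.ext this.1 this.2
  rw [Finset.offDiag_card] at h1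
  rw [Int.card_Icc] at h1
  omega

/-- The gap lemma. -/
lemma gap_bound {A : Set ℕ} (hA : IsPerfectDifferenceSet A) (n₀ : ℕ) (hn₀ : 2 ≤ n₀)
    (h : ∀ a ∈ A, ∀ b ∈ A, ∀ d, a = b + d → n₀ ≤ d → 1024 * Nat.log 2 d * a ≤ d ^ 2)
    (a b : ℕ → ℕ) (hab : ∀ d, 1 ≤ d → a d ∈ A ∧ b d ∈ A ∧ a d = b d + d)
    (s k : ℕ) (hk : 2 * s ^ 2 + 1 ≤ k)
    (hB : ∀ d, 1 ≤ d → d < n₀ → a d ≤ 2 ^ k) :
    ∀ x ∈ A, ∀ y ∈ A, x < y → 2 ^ k < y → 32 * s * 2 ^ (k / 2) ≤ y - x := by
  intro x hx y hy hxy hky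
  obtain ⟨d, hd⟩ : ∃ d, y = x + d := ⟨y - x, by omega⟩
  have hd1 : 1 ≤ d := by omega
  have hyx : y - x = d := by omega
  rw [hyx]
  have hdn : n₀ ≤ d := by
    by_contra hlt
    push Not at hlt
    obtain ⟨h1, h2, h3⟩ := hab d hd1
    have := (pds_unique hA hy hx h1 h2 hd1 hd h3).1
    have := hB d hd1 hlt
    omega
  have h1 := h y hy x hx d hd hdn
  have hlog1 : 1 ≤ Nat.log 2 d := by
    apply Nat.le_log_of_pow_le (by norm_num)
    simp
    omega
  have h2 : y ≤ d ^ 2 := by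
    calc y = 1 * y := (one_mul y).symm
      _ ≤ (1024 * Nat.log 2 d) * y := Nat.mul_le_mul_right _ (by omega)
      _ ≤ d ^ 2 := h1
  have h3 : (2 ^ (k / 2)) ^ 2 < d ^ 2 := by
    calc (2 ^ (k / 2)) ^ 2 = 2 ^ (k / 2 * 2) := by rw [← pow_mul]
      _ ≤ 2 ^ k := Nat.pow_le_pow_right (by norm_num) (Nat.div_mul_le_self k 2)
      _ < y := hky
      _ ≤ d ^ 2 := h2
  have h4 : 2 ^ (k / 2) < d := lt_of_pow_lt_pow_left₀ 2 (Nat.zero_le _) h3
  have h5 : k / 2 ≤ Nat.log 2 d := Nat.le_log_of_pow_le (by norm_num) h4.le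
  have h6 : s ^ 2 ≤ k / 2 := by omega
  have h7 : (32 * s * 2 ^ (k / 2)) ^ 2 ≤ d ^ 2 := by
    calc (32 * s * 2 ^ (k / 2)) ^ 2 = 1024 * s ^ 2 * (2 ^ (k / 2)) ^ 2 := by ring
      _ ≤ 1024 * s ^ 2 * 2 ^ k := by
          apply Nat.mul_le_mul_left
          rw [← pow_mul]
          exact Nat.pow_le_pow_right (by norm_num) (Nat.div_mul_le_self k 2)
      _ ≤ 1024 * Nat.log 2 d * y := by
          apply Nat.mul_le_mul
          · apply Nat.mul_le_mul_left
            omega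
          · exact hky.le
      _ ≤ d ^ 2 := h1
  exact (Nat.pow_le_pow_iff_left (by norm_num)).mp h7

/-- Number of differences in `D` whose larger element lies in a block. -/
lemma block_bound {A : Set ℕ} (a b : ℕ → ℕ)
    (hab : ∀ d, 1 ≤ d → a d ∈ A ∧ b d ∈ A ∧ a d = b d + d)
    (n u L g : ℕ) (hg : 1 ≤ g) (hun : n ≤ u)
    (D : Finset ℕ) (hD : ∀ d ∈ D, 1 ≤ d ∧ d ≤ n ∧ u < a d ∧ a d ≤ u + L)
    (hgap : ∀ x ∈ A, ∀ y ∈ A, x < y → u - n < y → g ≤ y - x) :
    D.card ≤ (n / g) * (L / g + 1) := by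
  classical
  have h1 : D.card ≤ (n / g) * (D.image a).card := by
    apply Finset.card_le_mul_card_image
    intro x hx
    rw [Finset.mem_image] at hx
    obtain ⟨d0, hd0, rfl⟩ := hx
    set x := a d0 with hxdef
    have hx0 := hD d0 hd0
    set F := (D.filter (fun d => a d = x)).image b with hF
    have hFcard : F.card = (D.filter (fun d => a d = x)).card := by
      apply Finset.card_image_of_injOn
      intro d hd e he hde
      rw [Finset.mem_coe, Finset.mem_filter] at hd he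
      have h1 := hab d (hD d hd.1).1
      have h2 := hab e (hD e he.1).1
      omega
    have hxF : x ∉ F := by
      intro hx
      rw [hF, Finset.mem_image] at hx
      obtain ⟨d, hd, hdx⟩ := hx
      rw [Finset.mem_filter] at hd
      have h1 := hab d (hD d hd.1).1
      have h2 := (hD d hd.1).1
      omega
    have hcard : (insert x F).card = F.card + 1 := Finset.card_insert_of_notMem hxF
    have hmem : ∀ y ∈ insert x F, y ∈ A ∧ x - n ≤ y ∧ y ≤ (x - n) + n ∧ u - n < y := by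
      intro y hy
      rw [Finset.mem_insert] at hy
      rcases hy with rfl | hy
      · refine ⟨(hab d0 hx0.1).1, ?_, ?_, ?_⟩ <;> omega
      · rw [hF, Finset.mem_image] at hy
        obtain ⟨d, hd, rfl⟩ := hy
        rw [Finset.mem_filter] at hd
        have h1 := hab d (hD d hd.1).1
        have h2 := (hD d hd.1)
        refine ⟨h1.2.1, ?_, ?_, ?_⟩ <;> omega
    have h2 := card_le_of_gap (insert x F) (x - n) n g hg
      (fun y hy => ⟨(hmem y hy).2.1, (hmem y hy).2.2.1⟩)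
      (fun y hy z hz hyz => hgap y (hmem y hy).1 z (hmem z hz).1 hyz (hmem z hz).2.2.2)
    omega
  have h2 : (D.image a).card ≤ L / g + 1 := by
    apply card_le_of_gap (D.image a) u L g hg
    · intro x hx
      rw [Finset.mem_image] at hx
      obtain ⟨d, hd, rfl⟩ := hx
      have := hD d hd
      omega
    · intro x hx y hy hxy
      rw [Finset.mem_image] at hx hy
      obtain ⟨d, hd, rfl⟩ := hx
      obtain ⟨e, he, rfl⟩ := hy
      have h1 := hD d hd
      have h2 := hD e he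
      exact hgap _ (hab d h1.1).1 _ (hab e h2.1).1 hxy (by omega)
  exact h1.trans (Nat.mul_le_mul_left _ h2)

/-- The lowest block. -/
lemma low_bound {A : Set ℕ} (a b : ℕ → ℕ)
    (hab : ∀ d, 1 ≤ d → a d ∈ A ∧ b d ∈ A ∧ a d = b d + d)
    (u L g t : ℕ) (hg : 1 ≤ g)
    (D : Finset ℕ) (hD : ∀ d ∈ D, 1 ≤ d ∧ u < a d ∧ a d ≤ u + L)
    (hgap : ∀ x ∈ A, ∀ y ∈ A, x < y → u < y → g ≤ y - x)
    (ht : ∀ T : Finset ℕ, (∀ x ∈ T, x ∈ A ∧ x ≤ u + L) → T.card ≤ t) :
    D.card ≤ t * (L / g + 1) := by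
  classical
  have h1 : D.card ≤ t * (D.image a).card := by
    apply Finset.card_le_mul_card_image
    intro x hx
    rw [Finset.mem_image] at hx
    obtain ⟨d0, hd0, rfl⟩ := hx
    set x := a d0 with hxdef
    have hx0 := hD d0 hd0
    set F := (D.filter (fun d => a d = x)).image b with hF
    have hFcard : F.card = (D.filter (fun d => a d = x)).card := by
      apply Finset.card_image_of_injOn
      intro d hd e he hde
      rw [Finset.mem_coe, Finset.mem_filter] at hd he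
      have h1 := hab d (hD d hd.1).1
      have h2 := hab e (hD e he.1).1
      omega
    rw [← hFcard]
    apply ht
    intro y hy
    rw [hF, Finset.mem_image] at hy
    obtain ⟨d, hd, rfl⟩ := hy
    rw [Finset.mem_filter] at hd
    have h1 := hab d (hD d hd.1).1
    have h2 := (hD d hd.1)
    exact ⟨h1.2.1, by omega⟩
  have h2 : (D.image a).card ≤ L / g + 1 := by
    apply card_le_of_gap (D.image a) u L g hg
    · intro x hx
      rw [Finset.mem_image] at hx
      obtain ⟨d, hd, rfl⟩ := hx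
      have := hD d hd
      omega
    · intro x hx y hy hxy
      rw [Finset.mem_image] at hx hy
      obtain ⟨d, hd, rfl⟩ := hx
      obtain ⟨e, he, rfl⟩ := hy
      have h1 := hD d hd
      have h2 := hD e he
      exact hgap _ (hab d h1.1).1 _ (hab e h2.1).1 hxy (by omega)
  exact h1.trans (Nat.mul_le_mul_left _ h2)

/-- arithmetic for one block -/
lemma block_arith (s j m : ℕ) (hs : 3 ≤ s) (hm : m = 2 * s ^ 2 + 2) (hj : m + 1 ≤ j) :
    (2 ^ m / (32 * s * 2 ^ ((j - 1) / 2))) * (2 ^ j / (32 * s * 2 ^ ((j - 1) / 2)) + 1)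
      ≤ 2 ^ m / (128 * s ^ 2) := by
  set q := (j - 1) / 2 with hq
  set g := 32 * s * 2 ^ q with hg
  have hsq : s ^ 2 ≤ q := by omega
  have h2q : j ≤ 2 * q + 2 := by omega
  have h2q' : 2 * q + 1 ≤ j := by omega
  have hgpos : 0 < g := by positivity
  -- g ≤ 2 ^ j
  have h32 : 32 * s ≤ 2 ^ q := by
    calc 32 * s ≤ 2 ^ 5 * 2 ^ s := by
          apply Nat.mul_le_mul (by norm_num) (Nat.lt_two_pow_self).le
      _ = 2 ^ (5 + s) := by rw [pow_add]
      _ ≤ 2 ^ (s ^ 2) := Nat.pow_le_pow_right (by norm_num) (by nlinarith)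
      _ ≤ 2 ^ q := Nat.pow_le_pow_right (by norm_num) hsq
  have hgj : g ≤ 2 ^ j := by
    calc g ≤ 2 ^ q * 2 ^ q := Nat.mul_le_mul_right _ h32
      _ = 2 ^ (q + q) := by rw [pow_add]
      _ ≤ 2 ^ j := Nat.pow_le_pow_right (by norm_num) (by omega)
  have h1 : 1 ≤ 2 ^ j / g := (Nat.one_le_div_iff hgpos).mpr hgj
  have h2 : 2 ^ j / g + 1 ≤ (2 * 2 ^ j) / g := by
    calc 2 ^ j / g + 1 ≤ 2 * (2 ^ j / g) := by omega
      _ ≤ (2 * 2 ^ j) / g := Nat.mul_div_le_mul_div_assoc 2 (2 ^ j) g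
  have h3 : g * g = 8 * 2 ^ (2 * q) * (128 * s ^ 2) := by
    rw [hg]
    ring
  calc (2 ^ m / g) * (2 ^ j / g + 1) ≤ (2 ^ m / g) * ((2 * 2 ^ j) / g) :=
        Nat.mul_le_mul_left _ h2
    _ ≤ (2 ^ m * (2 * 2 ^ j)) / (g * g) := Nat.div_mul_div_le _ _ _ _
    _ ≤ (8 * 2 ^ (2 * q) * 2 ^ m) / (g * g) := by
        apply Nat.div_le_div_right
        have : 2 ^ j ≤ 2 ^ (2 * q) * 4 := by
          calc 2 ^ j ≤ 2 ^ (2 * q + 2) := Nat.pow_le_pow_right (by norm_num) h2q
            _ = 2 ^ (2 * q) * 4 := by rw [pow_add]; norm_num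
        calc 2 ^ m * (2 * 2 ^ j) ≤ 2 ^ m * (2 * (2 ^ (2 * q) * 4)) := by gcongr
          _ = 8 * 2 ^ (2 * q) * 2 ^ m := by ring
    _ = 2 ^ m / (128 * s ^ 2) := by
        rw [h3]
        exact Nat.mul_div_mul_left _ _ (by positivity)

/-- final arithmetic -/
lemma final_arith (s m w Q R c l : ℕ) (hs : 100 ≤ s) (hw : 100 ≤ w) (hm : m - 1 ≤ 3 * s ^ 2)
    (hc : c = 2 * w ^ 2) (htot : c ≤ l + (m - 1) * Q) (hl : l ≤ (6 * w) * (R + 1))
    (hq : 128 * s ^ 2 * Q ≤ 4 * w ^ 2) (hr : (32 * s * w) * R ≤ 6 * w ^ 2) : False := by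
  have hr2 : 16 * s * R ≤ 3 * w := by
    have h : (2 * w) * (16 * s * R) ≤ (2 * w) * (3 * w) := by
      calc (2 * w) * (16 * s * R) = (32 * s * w) * R := by ring
        _ ≤ 6 * w ^ 2 := hr
        _ = (2 * w) * (3 * w) := by ring
    exact Nat.le_of_mul_le_mul_left h (by positivity)
  have hr3 : 500 * R ≤ w := by
    have h : 1600 * R ≤ 16 * s * R := Nat.mul_le_mul_right _ (by omega)
    omega
  have h1 : (m - 1) * Q ≤ 3 * s ^ 2 * Q := Nat.mul_le_mul_right _ hm
  have h2 : 128 * ((m - 1) * Q) ≤ 12 * w ^ 2 := by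
    calc 128 * ((m - 1) * Q) ≤ 128 * (3 * s ^ 2 * Q) := Nat.mul_le_mul_left _ h1
      _ = 3 * (128 * s ^ 2 * Q) := by ring
      _ ≤ 3 * (4 * w ^ 2) := Nat.mul_le_mul_left _ hq
      _ = 12 * w ^ 2 := by ring
  have h3 : 500 * (w * R) ≤ w ^ 2 := by
    calc 500 * (w * R) = w * (500 * R) := by ring
      _ ≤ w * w := Nat.mul_le_mul_left _ hr3
      _ = w ^ 2 := by ring
  have h4 : 100 * w ≤ w ^ 2 := by
    calc 100 * w ≤ w * w := Nat.mul_le_mul_right _ hw
      _ = w ^ 2 := by ring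
  have h5 : (6 * w) * (R + 1) = 6 * (w * R) + 6 * w := by ring
  have hwpos : 0 < w ^ 2 := by positivity
  omega

/-- The combinatorial core. -/
lemma core {A : Set ℕ} (hA : IsPerfectDifferenceSet A) (n₀ : ℕ) (hn₀ : 2 ≤ n₀)
    (h : ∀ a ∈ A, ∀ b ∈ A, ∀ d, a = b + d → n₀ ≤ d → 1024 * Nat.log 2 d * a ≤ d ^ 2) :
    False := by
  classical
  -- choose the pairs
  have hex : ∀ d : ℕ, ∃ p : ℕ × ℕ, 1 ≤ d → p.1 ∈ A ∧ p.2 ∈ A ∧ p.1 = p.2 + d := by
    intro d
    by_cases hd : 1 ≤ d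
    · obtain ⟨p, hp, _⟩ := hA.2 d hd
      exact ⟨p, fun _ => hp⟩
    · exact ⟨(0, 0), fun h => absurd h hd⟩
  choose p hp using hex
  set a : ℕ → ℕ := fun d => (p d).1 with ha
  set b : ℕ → ℕ := fun d => (p d).2 with hb
  have hab : ∀ d, 1 ≤ d → a d ∈ A ∧ b d ∈ A ∧ a d = b d + d := hp
  -- parameters
  obtain ⟨B₀, hB₀⟩ : ∃ B₀ : ℕ, ∀ d < n₀, a d ≤ B₀ :=
    ⟨(Finset.range n₀).sup a, fun d hd => Finset.le_sup (f := a) (Finset.mem_range.mpr hd)⟩
  obtain ⟨s, hs100, hsB, hsn⟩ : ∃ s : ℕ, 100 ≤ s ∧ B₀ ≤ s ∧ n₀ ≤ s :=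
    ⟨100 + B₀ + n₀, by omega, by omega, by omega⟩
  obtain ⟨m, hm⟩ : ∃ m : ℕ, m = 2 * s ^ 2 + 2 := ⟨_, rfl⟩
  obtain ⟨w, hw⟩ : ∃ w : ℕ, w = 2 ^ (s ^ 2) := ⟨_, rfl⟩
  have hss : s ≤ s ^ 2 := by nlinarith
  have hsw : s ^ 2 < w := by rw [hw]; exact Nat.lt_two_pow_self
  have hw100 : 100 ≤ w := by omega
  have h2m : 2 ^ m = 4 * w ^ 2 := by
    rw [hm, hw, ← pow_mul, pow_add, pow_mul' 2 2]
    ring
  have h2m1 : 2 ^ (m - 1) = 2 * w ^ 2 := by
    have : 2 ^ m = 2 * 2 ^ (m - 1) := by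
      rw [← pow_succ']
      congr 1
      omega
    omega
  have h2m2 : 2 ^ (m + 1) = 8 * w ^ 2 := by
    rw [pow_succ, h2m]
    ring
  have hw2 : w ≤ w ^ 2 := by nlinarith
  have hBle : ∀ k, 2 * s ^ 2 + 1 ≤ k → ∀ d, 1 ≤ d → d < n₀ → a d ≤ 2 ^ k := by
    intro k hk d hd hdn
    have h1 : a d ≤ B₀ := hB₀ d hdn
    have h2 : k < 2 ^ k := Nat.lt_two_pow_self
    omega
  have hgap : ∀ k, 2 * s ^ 2 + 1 ≤ k →
      ∀ x ∈ A, ∀ y ∈ A, x < y → 2 ^ k < y → 32 * s * 2 ^ (k / 2) ≤ y - x :=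
    fun k hk => gap_bound hA n₀ hn₀ h a b hab s k hk (hBle k hk)
  -- the differences
  set D : Finset ℕ := Finset.Ioc (2 ^ (m - 1)) (2 ^ m) with hD
  have hDcard : D.card = 2 * w ^ 2 := by
    rw [hD, Nat.card_Ioc, h2m, h2m1]
    omega
  set Dlow : Finset ℕ := D.filter (fun d => a d ≤ 2 ^ (m + 1)) with hDlow
  set Dj : ℕ → Finset ℕ := fun j => D.filter (fun d => 2 ^ j < a d ∧ a d ≤ 2 ^ (j + 1)) with hDj
  have hmemD : ∀ d ∈ D, 1 ≤ d ∧ 2 ^ (m - 1) < d ∧ d ≤ 2 ^ m ∧ n₀ ≤ d := by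
    intro d hd
    rw [hD, Finset.mem_Ioc] at hd
    refine ⟨by omega, hd.1, hd.2, ?_⟩
    have : n₀ ≤ 2 * w ^ 2 := by omega
    omega
  -- covering
  have hcover : D ⊆ Dlow ∪ (Finset.Ico (m + 1) (2 * m)).biUnion Dj := by
    intro d hd
    obtain ⟨hd1, hd2, hd3, hd4⟩ := hmemD d hd
    rw [Finset.mem_union]
    by_cases hlow : a d ≤ 2 ^ (m + 1)
    · left
      rw [hDlow, Finset.mem_filter]
      exact ⟨hd, hlow⟩
    · right
      push Not at hlow
      rw [Finset.mem_biUnion]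
      obtain ⟨h1, h2, h3⟩ := hab d hd1
      have h4 := h _ h1 _ h2 d h3 hd4
      have hlog1 : 1 ≤ Nat.log 2 d := by
        apply Nat.le_log_of_pow_le (by norm_num)
        omega
      have h5 : a d ≤ d ^ 2 := by
        calc a d = 1 * a d := (one_mul _).symm
          _ ≤ (1024 * Nat.log 2 d) * a d := Nat.mul_le_mul_right _ (by omega)
          _ ≤ d ^ 2 := h4
      have h6 : a d ≤ 2 ^ (2 * m) := by
        calc a d ≤ d ^ 2 := h5
          _ ≤ (2 ^ m) ^ 2 := Nat.pow_le_pow_left hd3 2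
          _ = 2 ^ (2 * m) := by rw [← pow_mul, mul_comm]
      have hne : a d - 1 ≠ 0 := by
        have : 1 ≤ 2 ^ (m + 1) := Nat.one_le_two_pow
        omega
      refine ⟨Nat.log 2 (a d - 1), ?_, ?_⟩
      · rw [Finset.mem_Ico]
        constructor
        · apply Nat.le_log_of_pow_le (by norm_num)
          omega
        · apply Nat.log_lt_of_lt_pow hne
          omega
      · rw [hDj]
        simp only [Finset.mem_filter]
        refine ⟨hd, ?_, ?_⟩
        · have := Nat.pow_log_le_self 2 hne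
          omega
        · have := Nat.lt_pow_succ_log_self (b := 2) (by norm_num) (a d - 1)
          rw [Nat.succ_eq_add_one] at this
          omega
  -- blocks
  have hblock : ∀ j ∈ Finset.Ico (m + 1) (2 * m), (Dj j).card ≤ 2 ^ m / (128 * s ^ 2) := by
    intro j hj
    rw [Finset.mem_Ico] at hj
    have hg1 : 1 ≤ 32 * s * 2 ^ ((j - 1) / 2) := by
      have : 0 < 2 ^ ((j - 1) / 2) := by positivity
      nlinarith
    have h2j : 2 ^ j = 2 * 2 ^ (j - 1) := by
      rw [← pow_succ']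
      congr 1
      omega
    have h2mj : 2 ^ m ≤ 2 ^ (j - 1) := Nat.pow_le_pow_right (by norm_num) (by omega)
    refine le_trans ?_ (block_arith s j m (by omega) hm hj.1)
    apply block_bound a b hab (2 ^ m) (2 ^ j) (2 ^ j) _ hg1 (by omega) (Dj j)
    · intro d hd
      rw [hDj] at hd
      simp only [Finset.mem_filter] at hd
      obtain ⟨hd1, hd2, hd3, hd4⟩ := hmemD d hd.1
      refine ⟨hd1, hd3, hd.2.1, ?_⟩
      have := hd.2.2
      rw [pow_succ] at this
      omega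
    · intro x hx y hy hxy hlt
      apply hgap (j - 1) (by omega) x hx y hy hxy
      omega
  -- low part
  have hlow : Dlow.card ≤ (6 * w) * (6 * w ^ 2 / (32 * s * w) + 1) := by
    have hm12 : (m - 1) / 2 = s ^ 2 := by omega
    apply low_bound a b hab (2 ^ (m - 1)) (6 * w ^ 2) (32 * s * w) (6 * w)
    · nlinarith
    · intro d hd
      rw [hDlow, Finset.mem_filter] at hd
      obtain ⟨hd1, hd2, hd3, hd4⟩ := hmemD d hd.1
      have := (hab d hd1).2.2
      refine ⟨hd1, by omega, ?_⟩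
      have := hd.2
      omega
    · intro x hx y hy hxy hlt
      have := hgap (m - 1) (by omega) x hx y hy hxy hlt
      rw [hm12, ← hw] at this
      exact this
    · intro T hT
      have h1 := card_sidon hA T (8 * w ^ 2) (fun x hx => ⟨(hT x hx).1, by
        have := (hT x hx).2
        omega⟩)
      by_contra hlt
      push Not at hlt
      have h2 : (6 * w + 1) * (6 * w) ≤ T.card * (T.card - 1) := by
        apply Nat.mul_le_mul <;> omega
      have h3 : T.card * T.card - T.card = T.card * (T.card - 1) := by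
        rw [Nat.mul_sub, mul_one]
      rw [h3] at h1
      nlinarith
  -- conclusion
  have htot : D.card ≤ Dlow.card + (m - 1) * (2 ^ m / (128 * s ^ 2)) := by
    calc D.card ≤ (Dlow ∪ (Finset.Ico (m + 1) (2 * m)).biUnion Dj).card :=
          Finset.card_le_card hcover
      _ ≤ Dlow.card + ((Finset.Ico (m + 1) (2 * m)).biUnion Dj).card :=
          Finset.card_union_le _ _
      _ ≤ Dlow.card + (Finset.Ico (m + 1) (2 * m)).card * (2 ^ m / (128 * s ^ 2)) := by
          apply Nat.add_le_add_left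
          exact Finset.card_biUnion_le_card_mul _ _ _ hblock
      _ = Dlow.card + (m - 1) * (2 ^ m / (128 * s ^ 2)) := by
          rw [Nat.card_Ico]
          congr 2
          omega
  have hq : 128 * s ^ 2 * (2 ^ m / (128 * s ^ 2)) ≤ 4 * w ^ 2 := by
    rw [← h2m]
    exact Nat.mul_div_le _ _
  have hr : (32 * s * w) * (6 * w ^ 2 / (32 * s * w)) ≤ 6 * w ^ 2 := Nat.mul_div_le _ _
  generalize 2 ^ m / (128 * s ^ 2) = Q at htot hq
  generalize 6 * w ^ 2 / (32 * s * w) = R at hlow hr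
  exact final_arith s m w Q R D.card Dlow.card hs100 hw100 (by omega) hDcard htot hlow hq hr

/-- The class of the question: the non-decreasing functions `G` such that for every perfect
difference set `A` there is `c > 0` with `a_n ≥ c n G(n)` for infinitely many `n ≥ 1`, where
`a_n` is the larger element of the unique pair of elements of `A` with difference `n`. -/
def growthClass : Set (ℕ → ℝ) :=
  {G | Monotone G ∧ ∀ A : Set ℕ, IsPerfectDifferenceSet A → ∃ c : ℝ, 0 < c ∧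
    {n : ℕ | 1 ≤ n ∧ ∃ a ∈ A, ∃ b ∈ A, a = b + n ∧ c * n * G n ≤ a}.Infinite}

lemma half_log_le (n : ℕ) (hn : 1 ≤ n) : (1 / 2 : ℝ) * (Nat.log 2 n : ℝ) ≤ Real.log n := by
  have h1 : 2 ^ Nat.log 2 n ≤ n := Nat.pow_log_le_self 2 (by omega)
  have h2 : ((2 : ℝ) ^ Nat.log 2 n) ≤ n := by exact_mod_cast h1
  have h3 : Real.log ((2 : ℝ) ^ Nat.log 2 n) ≤ Real.log n :=
    Real.log_le_log (by positivity) h2
  rw [Real.log_pow] at h3
  have h4 := Real.log_two_gt_d9
  have h5 : (0 : ℝ) ≤ (Nat.log 2 n : ℝ) := Nat.cast_nonneg _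
  nlinarith

/-- Every non-decreasing `G` with `G(n) = O(n / log n)` belongs to the class: in every perfect
difference set, `a_n ≥ c n ^ 2 / log n` for infinitely many `n`. -/
theorem result :
    {G : ℕ → ℝ | Monotone G ∧ G =O[atTop] fun n : ℕ => (n : ℝ) / Real.log n} ⊆ growthClass := by
  rintro G ⟨hmono, hO⟩
  refine ⟨hmono, ?_⟩
  intro A hA
  obtain ⟨C, hCpos, hC⟩ := hO.exists_pos
  rw [IsBigOWith] at hC
  obtain ⟨N₁, hN₁⟩ := eventually_atTop.mp hC
  refine ⟨1 / (2048 * C), by positivity, ?_⟩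
  intro hfin
  obtain ⟨N₂, hN₂⟩ := hfin.bddAbove
  rw [mem_upperBounds] at hN₂
  apply core hA (N₁ + N₂ + 3) (by omega)
  intro a ha b hb d had hd
  have hd3 : 3 ≤ d := by omega
  have hlog2 : 1 ≤ Nat.log 2 d := by
    apply Nat.le_log_of_pow_le (by norm_num)
    omega
  have hlog2' : (1 : ℝ) ≤ (Nat.log 2 d : ℝ) := by exact_mod_cast hlog2
  have hhalf := half_log_le d (by omega)
  have hlogpos : 0 < Real.log d := by linarith
  have hdpos : (0 : ℝ) < (d : ℝ) := by
    have : (3 : ℝ) ≤ (d : ℝ) := by exact_mod_cast hd3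
    linarith
  -- the bound on `a`
  have h1 : (a : ℝ) < 1 / (2048 * C) * d * G d := by
    by_contra hge
    push Not at hge
    have := hN₂ d ⟨by omega, a, ha, b, hb, had, hge⟩
    omega
  have h2 : G d ≤ C * (d / Real.log d) := by
    have h3 := hN₁ d (by omega)
    rw [Real.norm_eq_abs, Real.norm_eq_abs, abs_of_pos (div_pos hdpos hlogpos)] at h3
    exact (le_abs_self _).trans h3
  have h4 : (a : ℝ) * (2048 * Real.log d) ≤ (d : ℝ) ^ 2 := by
    have h5 : (a : ℝ) ≤ 1 / (2048 * C) * d * (C * (d / Real.log d)) := by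
      refine h1.le.trans ?_
      apply mul_le_mul_of_nonneg_left h2
      positivity
    have h6 : 1 / (2048 * C) * d * (C * (d / Real.log d)) * (2048 * Real.log d)
        = (d : ℝ) ^ 2 := by
      field_simp
    calc (a : ℝ) * (2048 * Real.log d)
        ≤ 1 / (2048 * C) * d * (C * (d / Real.log d)) * (2048 * Real.log d) := by
          apply mul_le_mul_of_nonneg_right h5
          positivity
      _ = (d : ℝ) ^ 2 := h6
  have h7 : (1024 : ℝ) * (Nat.log 2 d : ℝ) * a ≤ (d : ℝ) ^ 2 := by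
    have ha0 : (0 : ℝ) ≤ a := Nat.cast_nonneg _
    calc (1024 : ℝ) * (Nat.log 2 d : ℝ) * a ≤ (a : ℝ) * (2048 * Real.log d) := by
          nlinarith
      _ ≤ (d : ℝ) ^ 2 := h4
  exact_mod_cast h7

end Pool.Agent.Results.MP_35c1fe_nt.NearQuadratic
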