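import Pool.Agent.H24.P35.Fin

/-!
MP_35c1fe_nt: perfect difference sets, growth at every scale.
-/

set_option autoImplicit false

namespace Pool.Agent.Results.MP_35c1fe_nt.ThreeFifths

open Filter Pool.Agent.H88.PD

/-- There is `c > 0` such that for every perfect difference set and all large `N` some `n ≤ N`
has `a_n ≥ c n N ^ (3/5) / log N`, where `a_n` is the larger element of the unique pair of
elements with difference `n`. -/
theorem result : ∃ c : ℝ, 0 < c ∧ ∀ A : Set ℕ, IsPerfectDifferenceSet A → ∀ᶠ N : ℕ in atTop,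
    ∃ n, 1 ≤ n ∧ n ≤ N ∧ ∃ a ∈ A, ∃ b ∈ A, a = b + n ∧
      c * n * ((N : ℝ) ^ (3 / 5 : ℝ) / Real.log N) ≤ a :=
  ⟨1 / 64, by norm_num, Pool.Agent.H24.P35.f1⟩

end Pool.Agent.Results.MP_35c1fe_nt.ThreeFifths
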