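import Pool.Agent.H24.P35.Fin

/-!
MP_35c1fe_nt: perfect difference sets, many large values.
-/

set_option autoImplicit false

namespace Pool.Agent.Results.MP_35c1fe_nt.UpperDensity

open Filter Pool.Agent.H88.PD

/-- For every real `β < 2` there is `δ > 0` such that in every perfect difference set, for
infinitely many `N`, at least `δ N` of the `n ≤ N` have `a_n > N ^ β`, where `a_n` is the larger
element of the unique pair of elements with difference `n`. -/
theorem result : ∀ β : ℝ, β < 2 → ∃ δ : ℝ, 0 < δ ∧ ∀ A : Set ℕ, IsPerfectDifferenceSet A →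
    ∃ᶠ N : ℕ in atTop, δ * N ≤
      {n : ℕ | 1 ≤ n ∧ n ≤ N ∧ ∃ a ∈ A, ∃ b ∈ A, a = b + n ∧ (N : ℝ) ^ β < a}.ncard :=
  Pool.Agent.H24.P35.dens

end Pool.Agent.Results.MP_35c1fe_nt.UpperDensity
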